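import Mathlib

set_option autoImplicit false

/-!
# MP_3400ab_nt: the number of `m ≤ x` with exactly one minimal `m`-Markoff triple is `O(x / log x)`

If `m` has a unique minimal triple then `m = 3 a ^ 3 + 3 a ^ 2`, or `m` is in exactly one way the sum
of two positive squares. In the second case the squarefree part of `m` has at most one odd prime
factor, and the numbers of this kind are counted with the upper bound of Chebyshev.
-/

namespace Pool.Agent.Results.MP_3400ab_nt.UpperBound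

open Finset

/-- The set of the minimal `m`-Markoff triples: triples `(a, b, c)` of positive integers with
`a ^ 2 + b ^ 2 + c ^ 2 = 3 a b c + m`, `a ≤ b ≤ c` and `c ≥ 3 a b`. -/
def O (m : ℕ) : Set (ℕ × ℕ × ℕ) :=
  {t | 1 ≤ t.1 ∧ 1 ≤ t.2.1 ∧ 1 ≤ t.2.2 ∧
    t.1 ^ 2 + t.2.1 ^ 2 + t.2.2 ^ 2 = 3 * t.1 * t.2.1 * t.2.2 + m ∧
    t.1 ≤ t.2.1 ∧ t.2.1 ≤ t.2.2 ∧ 3 * t.1 * t.2.1 ≤ t.2.2}

/-- The set of the integers `m > 1` with exactly one minimal `m`-Markoff triple. -/
def U : Set ℕ := {m | 1 < m ∧ (O m).ncard = 1}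

/-- `U(x)`, the number of the elements of `U` up to `x`. -/
noncomputable def count (x : ℝ) : ℕ := {m : ℕ | m ∈ U ∧ (m : ℝ) ≤ x}.ncard

/-! ### The structure of the elements of `U` -/

theorem mem_of_add {m a b d : ℕ} (ha : 1 ≤ a) (hd : 1 ≤ d) (hb : 1 ≤ b) (had : a ≤ d)
    (h : m = a ^ 2 + b ^ 2 + d ^ 2 + 3 * a * b * d) : (a, d, 3 * a * d + b) ∈ O m := by
  refine ⟨ha, hd, ?_, ?_, had, ?_, ?_⟩
  · simp only
    omega
  · simp only
    rw [h]; ring
  · simp only
    nlinarith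
  · simp only
    omega

theorem structure_U {m : ℕ} (hm : m ∈ U) :
    (∃ a : ℕ, m = 3 * a ^ 3 + 3 * a ^ 2) ∨
    (∃ a b : ℕ, 1 ≤ a ∧ a ≤ b ∧ m = a ^ 2 + b ^ 2 ∧
      ∀ a' b' : ℕ, 1 ≤ a' → a' ≤ b' → m = a' ^ 2 + b' ^ 2 → a' = a ∧ b' = b) := by
  obtain ⟨_, h1⟩ := hm
  obtain ⟨⟨a, b, c⟩, ht⟩ := Set.ncard_eq_one.1 h1
  have hmem : (a, b, c) ∈ O m := by rw [ht]; rfl
  have huniq : ∀ t ∈ O m, t = (a, b, c) := by
    intro t h
    rw [ht] at h
    exact h
  obtain ⟨ha, hb, hc, heq, hab, hbc, h3⟩ := hmem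
  simp only at ha hb hc heq hab hbc h3
  rcases Nat.eq_or_lt_of_le h3 with h4 | h4
  · right
    have hm2 : m = a ^ 2 + b ^ 2 := by
      subst h4
      nlinarith
    refine ⟨a, b, ha, hab, hm2, fun a' b' ha' hab' h => ?_⟩
    have hmem' : (a', b', 3 * a' * b') ∈ O m := by
      refine ⟨ha', ha'.trans hab', ?_, ?_, hab', ?_, le_refl _⟩
      · simp only
        have : 1 ≤ b' := by omega
        nlinarith
      · simp only
        rw [h]; ring
      · simp only
        nlinarith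
    have := huniq _ hmem'
    simp only [Prod.mk.injEq] at this
    exact ⟨this.1, this.2.1⟩
  · left
    obtain ⟨d, hd⟩ := Nat.exists_eq_add_of_lt h4
    have hc2 : c = 3 * a * b + (d + 1) := by omega
    obtain ⟨e, he⟩ : ∃ e, e = d + 1 := ⟨_, rfl⟩
    rw [← he] at hc2
    have he1 : 1 ≤ e := by omega
    have hm2 : m = a ^ 2 + b ^ 2 + e ^ 2 + 3 * a * b * e := by
      subst hc2
      nlinarith
    have hbe : b = e := by
      rcases Nat.le_total a e with hae | hae
      · have := huniq _ (mem_of_add ha he1 hb hae hm2)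
        simp only [Prod.mk.injEq] at this
        exact this.2.1.symm
      · have := huniq _ (mem_of_add (m := m) he1 ha hb hae (by rw [hm2]; ring))
        simp only [Prod.mk.injEq] at this
        omega
    subst hbe
    have hab2 : b = a := by
      have := huniq _ (mem_of_add (m := m) (b := a) hb hb ha (le_refl _) (by rw [hm2]; ring))
      simp only [Prod.mk.injEq] at this
      exact this.1
    subst hab2
    exact ⟨b, by rw [hm2]; ring⟩

/-! ### Squarefree numbers with two representations as sums of two squares -/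

theorem sum_two_squares_of_dvd {h v : ℕ} (hh : Squarefree h)
    (h3 : ∀ q : ℕ, q.Prime → q ∣ h → q % 4 ≠ 3) (hv : v ∣ h) :
    ∃ x y : ℕ, v = x ^ 2 + y ^ 2 := by
  have hv0 : v ≠ 0 := fun h0 => hh.ne_zero (by rw [h0] at hv; exact Nat.eq_zero_of_zero_dvd hv)
  apply Nat.eq_sq_add_sq_of_isSquare_mod_neg_one
  rw [ZMod.isSquare_neg_one_iff_forall_mem_primeFactors_mod_four_ne_three
    (Squarefree.squarefree_of_dvd hv hh)]
  intro q hq
  exact h3 q (Nat.prime_of_mem_primeFactors hq) ((Nat.dvd_of_mem_primeFactors hq).trans hv)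

/-- a representation of a squarefree number with an odd prime factor as a sum of two squares has
nonzero distinct entries -/
theorem entries {v q x y : ℕ} (hv : Squarefree v) (hq : q.Prime) (hq2 : q ≠ 2) (hqv : q ∣ v)
    (h : v = x ^ 2 + y ^ 2) : x ≠ 0 ∧ y ≠ 0 ∧ x ≠ y := by
  have key : ∀ z : ℕ, v ≠ z ^ 2 := by
    intro z hz
    have h1 : q ∣ z := hq.dvd_of_dvd_pow (hz ▸ hqv)
    have h2 : q * q ∣ v := by rw [hz, sq]; exact Nat.mul_dvd_mul h1 h1
    exact hq.one_lt.ne' (Nat.isUnit_iff.1 (hv q h2))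
  refine ⟨?_, ?_, ?_⟩
  · rintro rfl
    exact key y (by simpa using h)
  · rintro rfl
    exact key x (by simpa using h)
  · rintro rfl
    have h0 : v = 2 * x ^ 2 := by rw [h]; ring
    have h1 : q ∣ x := by
      have h2 : q ∣ 2 * x ^ 2 := h0 ▸ hqv
      rcases (Nat.Prime.dvd_mul hq).1 h2 with h2 | h2
      · exact absurd ((Nat.prime_dvd_prime_iff_eq hq Nat.prime_two).1 h2) hq2
      · exact hq.dvd_of_dvd_pow h2
    have h2 : q * q ∣ v := by
      rw [h0, sq]; exact Dvd.dvd.mul_left (Nat.mul_dvd_mul h1 h1) _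
    exact hq.one_lt.ne' (Nat.isUnit_iff.1 (hv q h2))

theorem two_reps {h p q : ℕ} (hh : Squarefree h) (h3 : ∀ q : ℕ, q.Prime → q ∣ h → q % 4 ≠ 3)
    (hp : p.Prime) (hp2 : p ≠ 2) (hq : q.Prime) (hq2 : q ≠ 2) (hpq : p ≠ q) (hph : p ∣ h)
    (hqh : q ∣ h) :
    ∃ x y z w : ℕ, 1 ≤ x ∧ x ≤ y ∧ 1 ≤ z ∧ z ≤ w ∧ h = x ^ 2 + y ^ 2 ∧ h = z ^ 2 + w ^ 2 ∧
      ¬ (x = z ∧ y = w) := by
  obtain ⟨v, hv⟩ := hph
  have hqv : q ∣ v := by
    rw [hv] at hqh
    rcases (Nat.Prime.dvd_mul hq).1 hqh with h1 | h1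
    · exact absurd ((Nat.prime_dvd_prime_iff_eq hq hp).1 h1).symm hpq
    · exact h1
  have hvh : v ∣ h := ⟨p, by rw [hv]; ring⟩
  obtain ⟨A, B, hAB⟩ := sum_two_squares_of_dvd hh h3 (v := p) ⟨v, hv⟩
  obtain ⟨C, D, hCD⟩ := sum_two_squares_of_dvd hh h3 hvh
  obtain ⟨hA, hB, hAB'⟩ := entries hp.squarefree hp hp2 dvd_rfl hAB
  obtain ⟨hC, hD, hCD'⟩ := entries (Squarefree.squarefree_of_dvd hvh hh) hq hq2 hqv hCD
  -- the two representations, over the integers
  have r1 : (h : ℤ) = ((A : ℤ) * C - B * D) ^ 2 + ((A : ℤ) * D + B * C) ^ 2 := by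
    rw [hv, hAB, hCD]; push_cast; ring
  have r2 : (h : ℤ) = ((A : ℤ) * C + B * D) ^ 2 + ((A : ℤ) * D - B * C) ^ 2 := by
    rw [hv, hAB, hCD]; push_cast; ring
  obtain ⟨x1, hx1⟩ : ∃ x1 : ℕ, x1 = ((A : ℤ) * C - B * D).natAbs := ⟨_, rfl⟩
  obtain ⟨y1, hy1⟩ : ∃ y1 : ℕ, y1 = ((A : ℤ) * D + B * C).natAbs := ⟨_, rfl⟩
  obtain ⟨x2, hx2⟩ : ∃ x2 : ℕ, x2 = ((A : ℤ) * C + B * D).natAbs := ⟨_, rfl⟩
  obtain ⟨y2, hy2⟩ : ∃ y2 : ℕ, y2 = ((A : ℤ) * D - B * C).natAbs := ⟨_, rfl⟩
  have s1 : h = x1 ^ 2 + y1 ^ 2 := by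
    zify
    rw [hx1, hy1, Int.natCast_natAbs, Int.natCast_natAbs, sq_abs, sq_abs]
    exact r1
  have s2 : h = x2 ^ 2 + y2 ^ 2 := by
    zify
    rw [hx2, hy2, Int.natCast_natAbs, Int.natCast_natAbs, sq_abs, sq_abs]
    exact r2
  obtain ⟨a1, a2, _⟩ := entries hh hq hq2 hqh s1
  obtain ⟨a3, a4, _⟩ := entries hh hq hq2 hqh s2
  -- they are different
  have hA' : (0 : ℤ) < A := by positivity
  have hB' : (0 : ℤ) < B := by positivity
  have hC' : (0 : ℤ) < C := by positivity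
  have hD' : (0 : ℤ) < D := by positivity
  have d1 : x1 ≠ x2 := by
    rw [hx1, hx2]
    intro heq
    rcases Int.natAbs_eq_natAbs_iff.1 heq with h' | h'
    · have : (B : ℤ) * D = 0 := by linarith
      exact absurd this (by positivity)
    · have : (A : ℤ) * C = 0 := by linarith
      exact absurd this (by positivity)
  have d2 : x1 ≠ y2 := by
    rw [hx1, hy2]
    intro heq
    rcases Int.natAbs_eq_natAbs_iff.1 heq with h' | h'
    · have : ((A : ℤ) + B) * (C - D) = 0 := by linarith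
      rcases mul_eq_zero.1 this with h'' | h''
      · linarith
      · exact hCD' (by exact_mod_cast (by linarith : (C : ℤ) = D))
    · have : ((A : ℤ) - B) * (C + D) = 0 := by linarith
      rcases mul_eq_zero.1 this with h'' | h''
      · exact hAB' (by exact_mod_cast (by linarith : (A : ℤ) = B))
      · linarith
  -- order the entries
  have hsort : ∀ x y : ℕ, x ≠ 0 → y ≠ 0 → h = x ^ 2 + y ^ 2 →
      1 ≤ min x y ∧ min x y ≤ max x y ∧ h = (min x y) ^ 2 + (max x y) ^ 2 := by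
    intro x y hx hy hxy
    refine ⟨by omega, by omega, ?_⟩
    rcases Nat.le_total x y with h' | h'
    · rw [min_eq_left h', max_eq_right h']; exact hxy
    · rw [min_eq_right h', max_eq_left h', hxy]; ring
  obtain ⟨b1, b2, b3⟩ := hsort x1 y1 a1 a2 s1
  obtain ⟨b4, b5, b6⟩ := hsort x2 y2 a3 a4 s2
  exact ⟨_, _, _, _, b1, b2, b4, b5, b3, b6, by omega⟩

/-- A number which is in exactly one way the sum of two positive squares is `g ^ 2 h` with
`h = 1`, `h = 2`, `h = p` or `h = 2 p`, `p` a prime. -/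
theorem structure_unique {m a b : ℕ} (ha : 1 ≤ a) (hm : m = a ^ 2 + b ^ 2)
    (hu : ∀ a' b' : ℕ, 1 ≤ a' → a' ≤ b' → m = a' ^ 2 + b' ^ 2 → a' = a ∧ b' = b) :
    ∃ g h : ℕ, 1 ≤ g ∧ m = g ^ 2 * h ∧ (h = 1 ∨ h = 2 ∨ h.Prime ∨ ∃ p : ℕ, p.Prime ∧ h = 2 * p) := by
  have hm0 : 0 < m := by rw [hm]; positivity
  obtain ⟨h, g, hh0, hg0, hgh, hh⟩ := Nat.sq_mul_squarefree_of_pos hm0
  refine ⟨g, h, hg0, hgh.symm, ?_⟩
  -- no prime factor of `h` is `3` modulo `4`
  have h3 : ∀ q : ℕ, q.Prime → q ∣ h → q % 4 ≠ 3 := by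
    intro q hq hqh h4
    have hqm : q ∣ m := by rw [← hgh]; exact Dvd.dvd.mul_left hqh _
    have heven := Nat.eq_sq_add_sq_iff.1 ⟨a, b, hm⟩ q
      (Nat.mem_primeFactors.2 ⟨hq, hqm, hm0.ne'⟩) h4
    have := Fact.mk hq
    rw [← hgh, padicValNat.mul (by positivity) (by positivity), padicValNat.pow] at heven
    have h1 : padicValNat q h = 1 := by
      have h2 : padicValNat q h ≠ 0 := by
        intro h0
        have := one_le_padicValNat_of_dvd hh0.ne' hqh
        omega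
      have h5 : h.factorization q ≤ 1 := Squarefree.natFactorization_le_one q hh
      rw [Nat.factorization_def h hq] at h5
      omega
    rw [h1] at heven
    have : ¬ Even (2 * padicValNat q g + 1) := by simp
    exact this heven
  -- at most one odd prime factor
  have hone : ∀ p q : ℕ, p.Prime → q.Prime → p ≠ 2 → q ≠ 2 → p ∣ h → q ∣ h → p = q := by
    intro p q hp hq hp2 hq2 hph hqh
    by_contra hpq
    obtain ⟨x, y, z, w, hx, hxy, hz, hzw, e1, e2, hne⟩ := two_reps hh h3 hp hp2 hq hq2 hpq hph hqh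
    have m1 : m = (g * x) ^ 2 + (g * y) ^ 2 := by rw [← hgh, e1]; ring
    have m2 : m = (g * z) ^ 2 + (g * w) ^ 2 := by rw [← hgh, e2]; ring
    have u1 := hu (g * x) (g * y) (Nat.mul_pos hg0 hx) (Nat.mul_le_mul_left _ hxy) m1
    have u2 := hu (g * z) (g * w) (Nat.mul_pos hg0 hz) (Nat.mul_le_mul_left _ hzw) m2
    apply hne
    constructor
    · exact Nat.eq_of_mul_eq_mul_left hg0 (u1.1.trans u2.1.symm)
    · exact Nat.eq_of_mul_eq_mul_left hg0 (u1.2.trans u2.2.symm)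
  -- conclusion
  by_cases hodd : ∃ p : ℕ, p.Prime ∧ p ≠ 2 ∧ p ∣ h
  · obtain ⟨p, hp, hp2, k, hk⟩ := hodd
    have hk2 : ∀ q : ℕ, q.Prime → q ∣ k → q = 2 := by
      intro q hq hqk
      by_contra hq2
      have hqh : q ∣ h := by rw [hk]; exact Dvd.dvd.mul_left hqk _
      have hpq := hone p q hp hq hp2 hq2 ⟨k, hk⟩ hqh
      subst hpq
      have : p * p ∣ h := by rw [hk]; exact Nat.mul_dvd_mul_left _ hqk
      exact hp.one_lt.ne' (Nat.isUnit_iff.1 (hh p this))
    have hk1 : k = 1 ∨ k = 2 := by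
      rcases Nat.eq_zero_or_pos k with h0 | hkpos
      · rw [h0, mul_zero] at hk; omega
      have hkp : k = 2 ^ k.primeFactorsList.length := Nat.eq_prime_pow_of_unique_prime_dvd hkpos.ne' (fun {q} hq hqk => hk2 q hq hqk)
      have hks : Squarefree k := Squarefree.squarefree_of_dvd ⟨p, by rw [hk]; ring⟩ hh
      rw [hkp] at hks
      rcases Nat.lt_or_ge k.primeFactorsList.length 2 with hl | hl
      · interval_cases hlen : k.primeFactorsList.length
        · left; rw [hkp]; norm_num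
        · right; rw [hkp]; norm_num
      · exfalso
        have : 2 * 2 ∣ 2 ^ k.primeFactorsList.length := by
          calc 2 * 2 = 2 ^ 2 := by norm_num
            _ ∣ _ := pow_dvd_pow 2 hl
        have := Nat.isUnit_iff.1 (hks 2 this)
        omega
    rcases hk1 with rfl | rfl
    · right; right; left; rw [hk, mul_one]; exact hp
    · right; right; right; exact ⟨p, hp, by rw [hk]; ring⟩
  · push Not at hodd
    have hkp : h = 2 ^ h.primeFactorsList.length := Nat.eq_prime_pow_of_unique_prime_dvd hh0.ne'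
      (fun {q} hq hqk => by by_contra h2; exact hodd q hq h2 hqk)
    rcases Nat.lt_or_ge h.primeFactorsList.length 2 with hl | hl
    · interval_cases hlen : h.primeFactorsList.length
      · left; rw [hkp]; norm_num
      · right; left; rw [hkp]; norm_num
    · exfalso
      have h5 : 2 * 2 ∣ h := by
        rw [hkp]
        calc 2 * 2 = 2 ^ 2 := by norm_num
          _ ∣ _ := pow_dvd_pow 2 hl
      have := Nat.isUnit_iff.1 (hh 2 h5)
      omega

/-! ### Counting -/

theorem pi_bound (y : ℝ) (hy : 1 ≤ y) :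
    (Nat.primeCounting ⌊y⌋₊ : ℝ) ≤ (4 * Real.log 4 + 2) * (y / (1 + Real.log y)) := by
  have hlog : 0 ≤ Real.log y := Real.log_nonneg hy
  have hlog4 : 0 ≤ Real.log 4 := Real.log_nonneg (by norm_num)
  have hden : 0 < 1 + Real.log y := by linarith
  have hpos : 0 ≤ y / (1 + Real.log y) := by positivity
  rcases lt_or_ge y (Real.exp 1) with h | h
  · have h1 : ⌊y⌋₊ ≤ 2 := by
      have h2 : y < 3 := h.trans (Real.exp_one_lt_d9.trans (by norm_num))
      have h3 : ⌊y⌋₊ < 3 := (Nat.floor_lt (by linarith)).2 (by exact_mod_cast h2)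
      omega
    have h2 : Nat.primeCounting ⌊y⌋₊ ≤ 1 := (Nat.monotone_primeCounting h1).trans (by decide)
    have h3 : (Nat.primeCounting ⌊y⌋₊ : ℝ) ≤ 1 := by exact_mod_cast h2
    have h4 : Real.log y ≤ 1 := by
      rw [Real.log_le_iff_le_exp (by linarith)]; exact h.le
    have h5 : 1 / 2 ≤ y / (1 + Real.log y) := by
      rw [div_le_div_iff₀ (by norm_num) hden]
      linarith
    nlinarith
  · have hlog1 : 1 ≤ Real.log y := by
      rw [Real.le_log_iff_exp_le (by linarith)]; exact h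
    have hy1 : 1 < y := by
      have := Real.add_one_lt_exp (x := 1) (by norm_num)
      linarith
    have hc := Chebyshev.pi_le_log4_mul_div hy1
    have hs : Real.log (√y) = Real.log y / 2 := Real.log_sqrt (by linarith)
    rw [hs] at hc
    have e1 : Real.log 4 * y / (Real.log y / 2) ≤ (4 * Real.log 4) * (y / (1 + Real.log y)) := by
      rw [mul_div_assoc', div_le_div_iff₀ (by linarith) hden]
      nlinarith [mul_nonneg hlog4 (by linarith : (0 : ℝ) ≤ y)]
    have e2 : √y ≤ 2 * (y / (1 + Real.log y)) := by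
      have e3 : Real.log y ≤ 2 * (√y - 1) := by
        have e4 := Real.log_le_sub_one_of_pos (Real.sqrt_pos.2 (by linarith : (0 : ℝ) < y))
        rw [hs] at e4
        linarith
      rw [mul_div_assoc', le_div_iff₀ hden]
      have e5 := Real.mul_self_sqrt (by linarith : (0 : ℝ) ≤ y)
      nlinarith [Real.sqrt_nonneg y]
    calc (Nat.primeCounting ⌊y⌋₊ : ℝ) ≤ _ := hc
      _ ≤ (4 * Real.log 4) * (y / (1 + Real.log y)) + 2 * (y / (1 + Real.log y)) := add_le_add e1 e2
      _ = _ := by ring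

/-- Primes up to `n`. -/
def Pr (n : ℕ) : Finset ℕ := (range (n + 1)).filter Nat.Prime

theorem card_Pr (n : ℕ) : (Pr n).card = Nat.primeCounting n := by
  rw [Nat.primeCounting, Nat.primeCounting', Nat.count_eq_card_filter_range, Pr]

theorem count_le (x : ℝ) :
    count x ≤ (Nat.sqrt ⌊x⌋₊ + 1) +
      ∑ g ∈ Icc 1 (Nat.sqrt ⌊x⌋₊), (2 + 2 * Nat.primeCounting (⌊x⌋₊ / g ^ 2)) := by
  obtain ⟨X, hX⟩ : ∃ X, X = ⌊x⌋₊ := ⟨_, rfl⟩
  rw [← hX]
  obtain ⟨G, hG⟩ : ∃ G, G = Nat.sqrt X := ⟨_, rfl⟩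
  rw [← hG]
  let H : ℕ → Finset ℕ := fun g =>
    ({1, 2} : Finset ℕ) ∪ Pr (X / g ^ 2) ∪ (Pr (X / g ^ 2)).image (fun p => 2 * p)
  let F : Finset ℕ := (range (G + 1)).image (fun a => 3 * a ^ 3 + 3 * a ^ 2) ∪
    (Icc 1 G).biUnion (fun g => (H g).image (fun h => g ^ 2 * h))
  have hsub : {m : ℕ | m ∈ U ∧ (m : ℝ) ≤ x} ⊆ (F : Set ℕ) := by
    rintro m ⟨hm, hmx⟩
    have hmX : m ≤ X := by rw [hX]; exact Nat.le_floor hmx
    show m ∈ F
    rw [Finset.mem_union]
    rcases structure_U hm with ⟨a, ha⟩ | ⟨a, b, ha, _, hab, hu⟩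
    · left
      rw [Finset.mem_image]
      refine ⟨a, ?_, ha.symm⟩
      rw [Finset.mem_range]
      have h1 : a * a ≤ X := by
        have : a * a ≤ 3 * a ^ 3 + 3 * a ^ 2 := by nlinarith [Nat.zero_le (a ^ 3)]
        omega
      have := Nat.le_sqrt.2 h1
      omega
    · right
      obtain ⟨g, h, hg, hgh, hcase⟩ := structure_unique ha hab hu
      rw [Finset.mem_biUnion]
      have hh : 1 ≤ h := by
        rcases hcase with h1 | h1 | h1 | ⟨p, hp, h1⟩
        · omega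
        · omega
        · exact h1.one_lt.le
        · have := hp.one_lt; omega
      have hg2 : g * g ≤ X := by
        have : g ^ 2 * 1 ≤ g ^ 2 * h := Nat.mul_le_mul_left _ hh
        nlinarith
      refine ⟨g, ?_, ?_⟩
      · rw [Finset.mem_Icc]
        exact ⟨hg, by rw [hG]; exact Nat.le_sqrt.2 hg2⟩
      · rw [Finset.mem_image]
        refine ⟨h, ?_, hgh.symm⟩
        have hle : h ≤ X / g ^ 2 := by
          rw [Nat.le_div_iff_mul_le (by positivity)]
          calc h * g ^ 2 = m := by rw [hgh]; ring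
            _ ≤ X := hmX
        simp only [H, Finset.mem_union, Finset.mem_image, Pr, Finset.mem_filter, Finset.mem_range,
          Finset.mem_insert, Finset.mem_singleton]
        rcases hcase with h1 | h1 | h1 | ⟨p, hp, h1⟩
        · left; left; left; exact h1
        · left; left; right; exact h1
        · left; right; exact ⟨by omega, h1⟩
        · right; exact ⟨p, ⟨by omega, hp⟩, h1.symm⟩
  have hcard : count x ≤ F.card := by
    unfold count
    rw [← Set.ncard_coe_finset F]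
    exact Set.ncard_le_ncard hsub (Finset.finite_toSet F)
  refine hcard.trans ((Finset.card_union_le _ _).trans (add_le_add ?_ ?_))
  · exact Finset.card_image_le.trans (by simp)
  · refine Finset.card_biUnion_le.trans (Finset.sum_le_sum fun g _ => ?_)
    refine Finset.card_image_le.trans ?_
    calc (H g).card ≤ (({1, 2} : Finset ℕ) ∪ Pr (X / g ^ 2)).card +
          ((Pr (X / g ^ 2)).image (fun p => 2 * p)).card := Finset.card_union_le _ _
      _ ≤ (({1, 2} : Finset ℕ).card + (Pr (X / g ^ 2)).card) + (Pr (X / g ^ 2)).card :=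
          add_le_add (Finset.card_union_le _ _) Finset.card_image_le
      _ = 2 + 2 * Nat.primeCounting (X / g ^ 2) := by
          rw [card_Pr]
          have : ({1, 2} : Finset ℕ).card = 2 := by decide
          rw [this]; ring

/-- **Q2**: `U(x) = O(x / log x)`. -/
theorem result : ∃ C : ℝ, ∀ x : ℝ, 2 ≤ x → (count x : ℝ) ≤ C * (x / Real.log x) := by
  obtain ⟨K, hK⟩ : ∃ K : ℝ, K = 4 * Real.log 4 + 2 := ⟨_, rfl⟩
  have hK0 : 0 ≤ K := by
    rw [hK]; have : 0 ≤ Real.log 4 := Real.log_nonneg (by norm_num)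
    linarith
  have hsum : Summable (fun g : ℕ => 1 / (g : ℝ) ^ (3 / 2 : ℝ)) :=
    Real.summable_one_div_nat_rpow.2 (by norm_num)
  obtain ⟨S, hS⟩ : ∃ S : ℝ, S = ∑' g : ℕ, 1 / (g : ℝ) ^ (3 / 2 : ℝ) := ⟨_, rfl⟩
  have hS0 : 0 ≤ S := by rw [hS]; exact tsum_nonneg (fun g => by positivity)
  refine ⟨8 + 8 * K * S, fun x hx => ?_⟩
  have hlogx : 0 < Real.log x := Real.log_pos (by linarith)
  obtain ⟨G, hG⟩ : ∃ G, G = Nat.sqrt ⌊x⌋₊ := ⟨_, rfl⟩
  obtain ⟨R, hR⟩ : ∃ R : ℝ, R = x / (1 + Real.log x) := ⟨_, rfl⟩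
  have hR0 : 0 ≤ R := by rw [hR]; positivity
  have hsqrt : √x ≤ 2 * R := by
    have e3 : Real.log x ≤ 2 * (√x - 1) := by
      have e4 := Real.log_le_sub_one_of_pos (Real.sqrt_pos.2 (by linarith : (0 : ℝ) < x))
      rw [Real.log_sqrt (by linarith)] at e4
      linarith
    rw [hR, mul_div_assoc', le_div_iff₀ (by linarith)]
    have e5 := Real.mul_self_sqrt (by linarith : (0 : ℝ) ≤ x)
    nlinarith [Real.sqrt_nonneg x]
  have hGx : (G : ℝ) ≤ √x := by
    apply Real.le_sqrt_of_sq_le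
    have h1 : G * G ≤ ⌊x⌋₊ := by rw [hG]; exact Nat.sqrt_le _
    have h2 : ((G * G : ℕ) : ℝ) ≤ x := (Nat.le_floor_iff (by linarith)).1 h1
    push_cast at h2
    nlinarith
  have h1x : 1 ≤ √x := by
    rw [← Real.sqrt_one]; exact Real.sqrt_le_sqrt (by linarith)
  have hterm : ∀ g ∈ Icc 1 G, ((2 + 2 * Nat.primeCounting (⌊x⌋₊ / g ^ 2) : ℕ) : ℝ) ≤
      2 + 8 * K * R * (1 / (g : ℝ) ^ (3 / 2 : ℝ)) := by
    intro g hg
    rw [Finset.mem_Icc] at hg
    have hg1 : (1 : ℝ) ≤ g := by exact_mod_cast hg.1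
    have hg0 : (0 : ℝ) < g := by linarith
    have hgx : (g : ℝ) ^ 2 ≤ x := by
      have h1 : g ≤ G := hg.2
      have h2 : (g : ℝ) ≤ √x := (by exact_mod_cast h1 : (g : ℝ) ≤ G).trans hGx
      calc (g : ℝ) ^ 2 ≤ (√x) ^ 2 := by gcongr
        _ = x := Real.sq_sqrt (by linarith)
    obtain ⟨y, hy⟩ : ∃ y : ℝ, y = x / (g : ℝ) ^ 2 := ⟨_, rfl⟩
    have hy1 : 1 ≤ y := by rw [hy, le_div_iff₀ (by positivity)]; linarith
    have hfl : ⌊x⌋₊ / g ^ 2 = ⌊y⌋₊ := by
      rw [hy, ← Nat.floor_div_natCast]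
      push_cast
      rfl
    have hpi := pi_bound y hy1
    rw [← hK] at hpi
    have hlogy : 0 ≤ Real.log y := Real.log_nonneg hy1
    have hlogg : 0 ≤ Real.log g := Real.log_nonneg hg1
    have hxy : Real.log x = Real.log y + 2 * Real.log g := by
      have : x = y * (g : ℝ) ^ 2 := by rw [hy]; field_simp
      rw [this, Real.log_mul (by positivity) (by positivity), Real.log_pow]
      push_cast
      ring
    have hgs : (g : ℝ) ^ (3 / 2 : ℝ) = g * √g := by
      rw [Real.sqrt_eq_rpow, show (3 / 2 : ℝ) = 1 + 1 / 2 by norm_num, Real.rpow_add hg0,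
        Real.rpow_one]
    have hsg : √(g : ℝ) * √g = g := Real.mul_self_sqrt hg0.le
    have hsg1 : 0 < √(g : ℝ) := Real.sqrt_pos.2 hg0
    have hlg : 1 + 2 * Real.log g ≤ 4 * √g := by
      have e4 := Real.log_le_sub_one_of_pos hsg1
      rw [Real.log_sqrt hg0.le] at e4
      linarith
    have hy2 : y / (1 + Real.log y) ≤ 4 * R * (1 / (g : ℝ) ^ (3 / 2 : ℝ)) := by
      have e1 : y / (1 + Real.log y) ≤ y * (1 + 2 * Real.log g) / (1 + Real.log x) := by
        rw [div_le_div_iff₀ (by linarith) (by linarith), hxy]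
        have : 0 ≤ y * (Real.log y * (2 * Real.log g)) := by positivity
        nlinarith
      have e2 : y * (1 + 2 * Real.log g) / (1 + Real.log x) ≤ y * (4 * √g) / (1 + Real.log x) := by
        gcongr
      have e3 : y * (4 * √g) / (1 + Real.log x) = 4 * R * (1 / (g : ℝ) ^ (3 / 2 : ℝ)) := by
        rw [hR, hy, hgs]
        have h1 : (1 + Real.log x) ≠ 0 := by positivity
        field_simp
        nlinarith
      linarith
    rw [hfl]
    push_cast
    nlinarith
  have h1 := count_le x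
  rw [← hG] at h1
  have h2 : (count x : ℝ) ≤ ((G + 1 : ℕ) : ℝ) +
      ∑ g ∈ Icc 1 G, ((2 + 2 * Nat.primeCounting (⌊x⌋₊ / g ^ 2) : ℕ) : ℝ) := by
    exact_mod_cast h1
  have h3 : ∑ g ∈ Icc 1 G, ((2 + 2 * Nat.primeCounting (⌊x⌋₊ / g ^ 2) : ℕ) : ℝ) ≤
      2 * G + 8 * K * R * S := by
    refine (Finset.sum_le_sum hterm).trans ?_
    rw [Finset.sum_add_distrib, ← Finset.mul_sum]
    have h4 : ∑ g ∈ Icc 1 G, (1 / (g : ℝ) ^ (3 / 2 : ℝ)) ≤ S := by
      rw [hS]
      exact hsum.sum_le_tsum _ (fun g _ => by positivity)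
    have h5 : ∑ g ∈ Icc 1 G, (2 : ℝ) = 2 * G := by
      rw [Finset.sum_const, Nat.card_Icc]
      simp
      ring
    rw [h5]
    gcongr
  have h6 : (count x : ℝ) ≤ (8 + 8 * K * S) * R := by
    have h2' : ((G + 1 : ℕ) : ℝ) = (G : ℝ) + 1 := by push_cast; ring
    rw [h2'] at h2
    have h8 : (G : ℝ) + 1 + (2 * G + 8 * K * R * S) ≤ 4 * √x + 8 * K * R * S := by linarith
    have h9 : (count x : ℝ) ≤ 4 * √x + 8 * K * R * S := by linarith
    have h10 : 4 * √x + 8 * K * R * S ≤ (8 + 8 * K * S) * R := by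
      have : √x ≤ 2 * R := hsqrt
      nlinarith
    linarith
  have h7 : R ≤ x / Real.log x := by
    rw [hR]
    exact div_le_div_of_nonneg_left (by linarith) hlogx (by linarith)
  calc (count x : ℝ) ≤ (8 + 8 * K * S) * R := h6
    _ ≤ (8 + 8 * K * S) * (x / Real.log x) := by gcongr

end Pool.Agent.Results.MP_3400ab_nt.UpperBound
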